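import Pool.Agent.H38.PS.Targets3
import Pool.Agent.H86.RB.SMO

/-!
# The number of admissible triples with small radical, of any height
-/

set_option autoImplicit false

namespace Pool.Agent.H56.PS

open Pool.Agent.H38.RB Pool.Agent.H38.PS

theorem fall_pd_pos {S : Finset ℕ} (hS : ∀ p ∈ S, p.Prime) : 0 < pd S :=
  Finset.prod_pos fun p hp => (hS p hp).pos

/-- bounds for the size of a set contained in a union of four sets -/
theorem fall_card {α : Type} {S A B D E : Set α} {a b d e : ℝ} (h : S ⊆ A ∪ (B ∪ (D ∪ E)))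
    (hA : A.Finite ∧ (A.ncard : ℝ) ≤ a) (hB : B.Finite ∧ (B.ncard : ℝ) ≤ b)
    (hD : D.Finite ∧ (D.ncard : ℝ) ≤ d) (hE : E.Finite ∧ (E.ncard : ℝ) ≤ e) :
    S.Finite ∧ (S.ncard : ℝ) ≤ a + (b + (d + e)) := by
  have hf := hA.1.union (hB.1.union (hD.1.union hE.1))
  refine ⟨hf.subset h, ?_⟩
  have h1 := Set.ncard_le_ncard h hf
  have h2 := Set.ncard_union_le A (B ∪ (D ∪ E))
  have h3 := Set.ncard_union_le B (D ∪ E)
  have h3' := Set.ncard_union_le D E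
  have h4 : S.ncard ≤ A.ncard + (B.ncard + (D.ncard + E.ncard)) := by omega
  have h5 : (S.ncard : ℝ) ≤ A.ncard + (B.ncard + (D.ncard + E.ncard)) := by exact_mod_cast h4
  linarith [hA.2, hB.2, hD.2, hE.2]

theorem fall_log_pow {η X : ℝ} (hη : 0 < η) (hX : 1 ≤ X) :
    Real.log X ^ 10 ≤ (10 / η) ^ 10 * X ^ η := by
  have h0 : 0 ≤ Real.log X := Real.log_nonneg hX
  have h1 : Real.log X ≤ X ^ (η / 10) / (η / 10) :=
    Real.log_le_rpow_div (by linarith) (by linarith)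
  have h2 := pow_le_pow_left₀ h0 h1 10
  refine h2.trans (le_of_eq ?_)
  rw [div_pow, ← Real.rpow_natCast (X ^ (η / 10)) 10, ← Real.rpow_mul (by linarith)]
  have h3 : η / 10 * ((10 : ℕ) : ℝ) = η := by push_cast; ring
  rw [h3]
  field_simp

theorem fall_large {X : ℝ} (hX : (20 : ℝ) ^ 20 ≤ X) : Real.log X ^ 10 ≤ X := by
  have hX1 : 1 ≤ X := le_trans (by norm_num) hX
  have h1 := fall_log_pow (η := 1 / 2) (by norm_num) hX1
  have h2 : (20 : ℝ) ^ 10 ≤ X ^ (1 / 2 : ℝ) := by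
    have h3 := Real.rpow_le_rpow (by norm_num) hX (show (0 : ℝ) ≤ 1 / 2 by norm_num)
    refine le_trans (le_of_eq ?_) h3
    rw [← Real.rpow_natCast (20 : ℝ) 20, ← Real.rpow_mul (by norm_num)]
    norm_num
  have h4 : X ^ (1 / 2 : ℝ) * X ^ (1 / 2 : ℝ) = X := by
    rw [← Real.rpow_add (by linarith)]
    norm_num
  calc Real.log X ^ 10 ≤ (10 / (1 / 2 : ℝ)) ^ 10 * X ^ (1 / 2 : ℝ) := h1
    _ = (20 : ℝ) ^ 10 * X ^ (1 / 2 : ℝ) := by norm_num
    _ ≤ X ^ (1 / 2 : ℝ) * X ^ (1 / 2 : ℝ) :=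
        mul_le_mul_of_nonneg_right h2 (Real.rpow_nonneg (by linarith) _)
    _ = X := h4

/-- the bound for large `X` -/
theorem fall_core (hLPS : T_LPS) (hLP2 : T_LP2) (hSM : T_SM) (hSEL3 : T_SEL3)
    (hLGT2 : T_LGT2) (hREM2 : T_REM2) {ε : ℝ} (hε : 0 < ε) :
    ∃ C : ℝ, 0 < C ∧ ∀ X : ℝ, (20 : ℝ) ^ 20 ≤ X →
    {x | Adm x ∧ (pd (pr x).primeFactors : ℝ) ≤ X}.Finite ∧
    ({x | Adm x ∧ (pd (pr x).primeFactors : ℝ) ≤ X}.ncard : ℝ) ≤ C * X ^ (2 / 3 + ε) := by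
  obtain ⟨η, hη⟩ : ∃ η : ℝ, η = min (ε / 8) 1 := ⟨_, rfl⟩
  have hη0 : 0 < η := by rw [hη]; exact lt_min (by linarith) one_pos
  have hη8 : 8 * η ≤ ε := by
    have := min_le_left (ε / 8) 1
    rw [← hη] at this
    linarith
  have hη1 : η ≤ 1 := hη ▸ min_le_right _ _
  obtain ⟨δ, K, hδ, hδ1, hK, hsel⟩ := hSEL3 η hη0
  obtain ⟨A, C2, hA, hC2, hP⟩ := hLP2 η δ hη0 hδ
  obtain ⟨C4, hC4, hPS⟩ := hLPS η δ hη0 hδ
  obtain ⟨C1, hC1, hL⟩ := hLGT2 δ η hδ hη0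
  obtain ⟨A', hA'⟩ : ∃ A' : ℝ, A' = max A (2 * K) := ⟨_, rfl⟩
  have hAA : A ≤ A' := hA' ▸ le_max_left _ _
  have hKA : 2 * K ≤ A' := hA' ▸ le_max_right _ _
  obtain ⟨C3, hC3, hS⟩ := hSM A' η (hA.trans hAA) hη0
  have hc0 : 0 ≤ (10 / η) ^ 10 := by positivity
  refine ⟨C3 + (C1 + (C2 * (1 + (10 / η) ^ 10) + C4)), by positivity, fun X hX => ?_⟩
  have hX2 : 2 ≤ X := le_trans (by norm_num) hX
  have hX1 : 1 ≤ X := by linarith
  have hX0 : 0 < X := by linarith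
  have hlX : 0 ≤ Real.log X := Real.log_nonneg hX1
  have hY : 1 ≤ X ^ (2 / 3 + η) := Real.one_le_rpow hX1 (by linarith)
  have hZ1 : (1 : ℝ) ≤ max 1 (Real.log X ^ 10) := le_max_left _ _
  have hZX : max 1 (Real.log X ^ 10) ≤ X := max_le hX1 (fall_large hX)
  have hXe : 1 ≤ X ^ η := Real.one_le_rpow hX1 hη0.le
  have hZe : max 1 (Real.log X ^ 10) ≤ (1 + (10 / η) ^ 10) * X ^ η := by
    refine max_le ?_ ?_
    · nlinarith
    · have := fall_log_pow hη0 hX1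
      nlinarith
  have h1 := hL _ hY
  have h2 := hP X _ _ hX2 hY hZ1 hZX
  have h3 := hS X hX1
  have h4 := hPS X _ hX2 hY
  have hmon : ∀ {a : ℝ}, a ≤ 2 / 3 + ε → X ^ a ≤ X ^ (2 / 3 + ε) := fun h =>
    Real.rpow_le_rpow_of_exponent_le hX1 h
  have e1 : C1 * (X ^ (2 / 3 + η)) ^ (1 + η) ≤ C1 * X ^ (2 / 3 + ε) := by
    rw [← Real.rpow_mul hX0.le]
    exact mul_le_mul_of_nonneg_left (hmon (by nlinarith)) hC1.le
  have e2 : C2 * X ^ (2 / 3 + η) * max 1 (Real.log X ^ 10) * X ^ η ≤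
      C2 * (1 + (10 / η) ^ 10) * X ^ (2 / 3 + ε) := by
    have hp : 0 ≤ C2 * X ^ (2 / 3 + η) := by positivity
    calc C2 * X ^ (2 / 3 + η) * max 1 (Real.log X ^ 10) * X ^ η
        ≤ C2 * X ^ (2 / 3 + η) * ((1 + (10 / η) ^ 10) * X ^ η) * X ^ η :=
          mul_le_mul_of_nonneg_right (mul_le_mul_of_nonneg_left hZe hp) (by linarith)
      _ = C2 * (1 + (10 / η) ^ 10) * (X ^ (2 / 3 + η) * X ^ η * X ^ η) := by ring
      _ = C2 * (1 + (10 / η) ^ 10) * X ^ (2 / 3 + η + η + η) := by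
          rw [← Real.rpow_add hX0, ← Real.rpow_add hX0]
      _ ≤ _ := mul_le_mul_of_nonneg_left (hmon (by linarith)) (by positivity)
  have e3 : C3 * X ^ (2 / 3 + η) ≤ C3 * X ^ (2 / 3 + ε) :=
    mul_le_mul_of_nonneg_left (hmon (by linarith)) hC3.le
  have e4 : C4 * X ^ (2 / 3 + η) * X ^ η ≤ C4 * X ^ (2 / 3 + ε) := by
    rw [mul_assoc, ← Real.rpow_add hX0]
    exact mul_le_mul_of_nonneg_left (hmon (by linarith)) hC4.le
  have key := fall_card (S := {x | Adm x ∧ (pd (pr x).primeFactors : ℝ) ≤ X}) ?_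
    ⟨h3.1, h3.2.trans e3⟩ ⟨h1.1, h1.2.trans e1⟩ ⟨h2.1, h2.2.trans e2⟩ ⟨h4.1, h4.2.trans e4⟩
  · refine ⟨key.1, key.2.trans (le_of_eq ?_)⟩
    ring
  · rintro x ⟨hx, hpd⟩
    have hTp : ∀ p ∈ (pr x).primeFactors, p.Prime := fun p hp => Nat.prime_of_mem_primeFactors hp
    have hpd0 : (0 : ℝ) < pd (pr x).primeFactors := Nat.cast_pos.2 (fall_pd_pos hTp)
    have hlpd : Real.log (pd (pr x).primeFactors) ≤ Real.log X := Real.log_le_log hpd0 hpd
    by_cases hh : Real.log (ht x) ≤ A' * Real.log X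
    · exact Or.inl ⟨hx, hpd, hh⟩
    · have hh : A' * Real.log X < Real.log (ht x) := not_le.1 hh
      have hAx : A * Real.log X ≤ Real.log (ht x) :=
        le_trans (mul_le_mul_of_nonneg_right hAA hlX) hh.le
      have hl2 : 1 / 2 ≤ Real.log X := by
        have h5 := Real.log_le_log (by norm_num) hX2
        have h6 := Real.log_two_gt_d9
        linarith
      have hKx : K ≤ Real.log (ht x) := by
        have h5 : 2 * K * Real.log X ≤ A' * Real.log X := mul_le_mul_of_nonneg_right hKA hlX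
        nlinarith
      rcases hsel x hx hKx with ⟨E, hE, hE1, hE2⟩ | ⟨a, b, p, E, hab, hp, hE, hE1, hE2⟩
      · refine Or.inr (Or.inl ⟨(pr x).primeFactors \ E, ?_, ?_, hREM2 δ x hx E hE hE1⟩)
        · exact fun p hp => hTp p (Finset.mem_sdiff.1 hp).1
        · have h5 : (0 : ℝ) < pd ((pr x).primeFactors \ E) := Nat.cast_pos.2
            (fall_pd_pos fun p hp => hTp p (Finset.mem_sdiff.1 hp).1)
          rw [← Real.log_le_log_iff h5 (by positivity), Real.log_rpow hX0]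
          exact hE2.trans (mul_le_mul_of_nonneg_left hlpd (by linarith))
      · have hEp : ∀ q ∈ E, q.Prime := fun q hq => Nat.prime_of_mem_primeFactors (hE hq)
        have h5 : (0 : ℝ) < pd E := Nat.cast_pos.2 (fall_pd_pos hEp)
        have h6 : (0 : ℝ) < p := Nat.cast_pos.2 (Nat.prime_of_mem_primeFactors hp).pos
        have hTwo : x ∈ Two X (X ^ (2 / 3 + η)) δ := by
          refine ⟨hx, hpd, a, b, p, E, hab, hp, hE, hE1, ?_⟩
          rw [← Real.log_le_log_iff hpd0 (by positivity), Real.log_mul (by positivity) h5.ne',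
            Real.log_mul (by positivity) h6.ne', Real.log_rpow hX0]
          have h7 : (2 / 3 + η) * Real.log (pd (pr x).primeFactors) ≤
              (2 / 3 + η) * Real.log X := mul_le_mul_of_nonneg_left hlpd (by linarith)
          linarith
        by_cases hz : Real.log (ht x) ≤ max 1 (Real.log X ^ 10)
        · exact Or.inr (Or.inr (Or.inl ⟨hTwo, hAx, hz⟩))
        · have hz := not_le.1 hz
          exact Or.inr (Or.inr (Or.inr ⟨hTwo, (le_max_right _ _).trans hz.le⟩))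

theorem pf_FALL (hLPS : T_LPS) (hLP2 : T_LP2) (hSM : T_SM) (hSEL3 : T_SEL3)
    (hLGT2 : T_LGT2) (hREM2 : T_REM2) : T_FALL := by
  intro ε hε
  obtain ⟨C, hC, h⟩ := fall_core hLPS hLP2 hSM hSEL3 hLGT2 hREM2 hε
  refine ⟨C * ((20 : ℝ) ^ 20) ^ (2 / 3 + ε), by positivity, fun X hX => ?_⟩
  have h1 := h (max X ((20 : ℝ) ^ 20)) (le_max_right _ _)
  have hsub : {x | Adm x ∧ (pd (pr x).primeFactors : ℝ) ≤ X} ⊆
      {x | Adm x ∧ (pd (pr x).primeFactors : ℝ) ≤ max X ((20 : ℝ) ^ 20)} :=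
    fun x hx => ⟨hx.1, hx.2.trans (le_max_left _ _)⟩
  refine ⟨h1.1.subset hsub, ?_⟩
  have h2 : (({x | Adm x ∧ (pd (pr x).primeFactors : ℝ) ≤ X}.ncard : ℕ) : ℝ) ≤
      ({x | Adm x ∧ (pd (pr x).primeFactors : ℝ) ≤ max X ((20 : ℝ) ^ 20)}.ncard : ℕ) :=
    Nat.cast_le.2 (Set.ncard_le_ncard hsub h1.1)
  refine (h2.trans h1.2).trans ?_
  have hX0 : 0 ≤ X := by linarith
  have h3 : max X ((20 : ℝ) ^ 20) ≤ (20 : ℝ) ^ 20 * X := by
    refine max_le ?_ ?_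
    · nlinarith [show (1 : ℝ) ≤ 20 ^ 20 by norm_num]
    · nlinarith [show (1 : ℝ) ≤ 20 ^ 20 by norm_num]
  have h4 := Real.rpow_le_rpow (z := 2 / 3 + ε) (by positivity) h3 (by linarith)
  rw [Real.mul_rpow (by positivity) hX0] at h4
  calc C * max X ((20 : ℝ) ^ 20) ^ (2 / 3 + ε) ≤
      C * (((20 : ℝ) ^ 20) ^ (2 / 3 + ε) * X ^ (2 / 3 + ε)) :=
        mul_le_mul_of_nonneg_left h4 hC.le
    _ = _ := by ring

end Pool.Agent.H56.PS
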